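import Pool.Agent.Q2.PIM.Stm

/-!
# Project PIM: products of root vectors
-/

set_option autoImplicit false

namespace Pool.Agent.Q2.PIM

/-- pairs of indices -/
abbrev Pr := Fin 6 × Fin 6

/-- the bracket of two matrix units, if it is a matrix unit -/
def br (p q : Pr) : Option Pr :=
  if p.2 = q.1 then some (p.1, q.2) else if q.2 = p.1 then some (q.1, p.2) else none

/-- the bracket is not a difference of two diagonal units -/
def nd (p q : Pr) : Bool := !(decide (p.2 = q.1) && decide (q.2 = p.1))

/-- the bracket of `a` and `b` is zero or in `l` -/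
def brin (a b : Pr) (l : List Pr) : Bool :=
  nd a b && (match br a b with | none => true | some c => decide (c ∈ l))

/-- the condition on `b` relative to the reversed prefix `l` -/
def okp (b : Pr) : List Pr → Bool
  | [] => true
  | a :: l => brin a b l && okp b l

/-- the condition on a reversed list -/
def preB : List Pr → Bool
  | [] => true
  | b :: l => decide (b.1 ≠ b.2) && okp b l && preB l

/-- `c` can be moved to its copy in the list, brackets in `l` -/
def chk (c : Pr) (l : List Pr) : List Pr → Bool
  | [] => false
  | r :: post => decide (r = c) || (brin c r l && chk c l post)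

/-- the condition for commutation with an element with the brackets `g` -/
def cmB (g : Pr → Option Pr) : List Pr → List Pr → Bool
  | _, [] => true
  | post, a :: l =>
    (match g a with | none => true | some c => decide (c ∈ l) || chk c l post) &&
      cmB g (a :: post) l

section ring

variable {A : Type} [Ring A] (x : Fin 6 → Fin 6 → A)

/-- the element of a pair -/
def xe (p : Pr) : A := x p.1 p.2

/-- the element of an optional pair -/
def ox : Option Pr → A
  | none => 0
  | some p => xe x p

/-- the product over a reversed list -/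
def Xr : List Pr → A
  | [] => 1
  | b :: l => Xr l * xe x b

theorem xp_nil : xp x [] = 1 := rfl

theorem xp_cons (a : Pr) (l : List Pr) : xp x (a :: l) = xe x a * xp x l := by
  simp [xp, xe]

theorem xp_append (l m : List Pr) : xp x (l ++ m) = xp x l * xp x m := by
  simp [xp]

theorem Xr_eq (l : List Pr) : Xr x l = xp x l.reverse := by
  induction l with
  | nil => rfl
  | cons a l ih => rw [List.reverse_cons, xp_append, xp_cons, xp_nil, mul_one, ← ih]; rfl

variable {x} (h : Rel6 x)

include h

theorem comm_br (p q : Pr) (hn : nd p q = true) :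
    xe x p * xe x q + xe x q * xe x p = ox x (br p q) := by
  have h1 := h.comm p.1 p.2 q.1 q.2
  have h2 : ¬ (p.2 = q.1 ∧ q.2 = p.1) := by
    intro h3
    simp [nd, h3.1, h3.2] at hn
  show x p.1 p.2 * x q.1 q.2 + x q.1 q.2 * x p.1 p.2 = _
  rw [h1, br]
  by_cases h3 : p.2 = q.1
  · have h4 : q.2 ≠ p.1 := fun h5 => h2 ⟨h3, h5⟩
    rw [if_pos h3, if_pos h3, if_neg h4, add_zero]
    rfl
  · rw [if_neg h3, if_neg h3, zero_add]
    split_ifs
    · rfl
    · rfl

theorem swap_br (p q : Pr) (hn : nd p q = true) :
    xe x p * xe x q = xe x q * xe x p + ox x (br p q) := by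
  rw [← comm_br h p q hn]
  have := h.two (xe x q * xe x p)
  rw [← add_assoc, add_comm (xe x q * xe x p) (xe x p * xe x q), add_assoc, this, add_zero]

theorem nd_of_brin {a b : Pr} {l : List Pr} (hb : brin a b l = true) : nd a b = true := by
  rw [brin, Bool.and_eq_true] at hb
  exact hb.1

/-- a bracket in `l` is killed -/
theorem ox_zero_of_brin {a b : Pr} {l : List Pr} (Y : A) (hY : ∀ c ∈ l, Y * xe x c = 0)
    (hb : brin a b l = true) : Y * ox x (br a b) = 0 := by
  rw [brin, Bool.and_eq_true] at hb
  have h2 := hb.2
  cases hbr : br a b with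
  | none => exact mul_zero Y
  | some c =>
    rw [hbr] at h2
    exact hY c (of_decide_eq_true h2)

theorem brin_mono {a b : Pr} {l m : List Pr} (hb : brin a b l = true) (hlm : ∀ c ∈ l, c ∈ m) :
    brin a b m = true := by
  rw [brin, Bool.and_eq_true] at hb ⊢
  refine ⟨hb.1, ?_⟩
  have h2 := hb.2
  cases hbr : br a b with
  | none => rfl
  | some c =>
    rw [hbr] at h2
    exact decide_eq_true (hlm c (of_decide_eq_true h2))

/-- brackets with `b` stay in the prefix -/
theorem brin_of_okp {b : Pr} {l : List Pr} (hb : okp b l = true) : ∀ a ∈ l, brin a b l = true := by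
  induction l with
  | nil => intro a ha; cases ha
  | cons a' l ih =>
    rw [okp, Bool.and_eq_true] at hb
    intro a ha
    rcases List.mem_cons.mp ha with rfl | ha
    · exact brin_mono h hb.1 fun c hc => List.mem_cons_of_mem _ hc
    · exact brin_mono h (ih hb.2 a ha) fun c hc => List.mem_cons_of_mem _ hc

/-- right annihilation -/
theorem ann (l : List Pr) (hl : preB l = true) : ∀ c ∈ l, Xr x l * xe x c = 0 := by
  induction l with
  | nil => intro c hc; cases hc
  | cons b l ih =>
    rw [preB, Bool.and_eq_true, Bool.and_eq_true] at hl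
    obtain ⟨⟨h1, h2⟩, h3⟩ := hl
    intro c hc
    show Xr x l * xe x b * xe x c = 0
    rcases List.mem_cons.mp hc with rfl | hc
    · rw [mul_assoc]
      have : xe x c * xe x c = 0 := h.sq _ _ (of_decide_eq_true h1)
      rw [this, mul_zero]
    · have h4 := brin_of_okp h h2 c hc
      have h5 : xe x b * xe x c = xe x c * xe x b + ox x (br c b) := by
        rw [swap_br h c b (nd_of_brin h h4), add_assoc, h.two, add_zero]
      rw [mul_assoc, h5, mul_add, ← mul_assoc, ih h3 c hc, zero_mul, zero_add]
      exact ox_zero_of_brin h _ (ih h3) h4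

/-- annihilation after a word of later elements -/
theorem annW (l : List Pr) (hl : preB l = true) (w : List Pr) (hw : ∀ r ∈ w, okp r l = true) :
    ∀ c ∈ l, Xr x l * xp x w * xe x c = 0 := by
  induction w using List.reverseRecOn with
  | nil =>
    intro c hc
    rw [xp_nil, mul_one]
    exact ann h l hl c hc
  | append_singleton w r ih =>
    intro c hc
    have ih' := ih fun r' hr' => hw r' (List.mem_append_left _ hr')
    have hr : okp r l = true := hw r (List.mem_append_right _ (List.mem_singleton_self r))
    have h4 := brin_of_okp h hr c hc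
    have h5 : xe x r * xe x c = xe x c * xe x r + ox x (br c r) := by
      rw [swap_br h c r (nd_of_brin h h4), add_assoc, h.two, add_zero]
    rw [xp_append, xp_cons, xp_nil, mul_one, ← mul_assoc, mul_assoc _ (xe x r), h5, mul_add,
      ← mul_assoc, ih' c hc, zero_mul, zero_add]
    exact ox_zero_of_brin h _ ih' h4

/-- moving `c` to its copy -/
theorem chk_zero (l : List Pr) (hl : preB l = true) (c : Pr) (hc : c.1 ≠ c.2) (w post : List Pr)
    (hw : ∀ r ∈ w, okp r l = true) (hpost : ∀ r ∈ post, okp r l = true)
    (hch : chk c l post = true) : Xr x l * xp x w * xe x c * xp x post = 0 := by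
  induction post generalizing w with
  | nil => cases hch
  | cons r post ih =>
    rw [chk, Bool.or_eq_true] at hch
    rcases hch with h1 | h1
    · have hrc : r = c := of_decide_eq_true h1
      subst hrc
      have h2 : xe x r * xe x r = 0 := h.sq _ _ hc
      rw [xp_cons, mul_assoc, ← mul_assoc (xe x r), h2, zero_mul, mul_zero]
    · rw [Bool.and_eq_true] at h1
      have hr : okp r l = true := hpost r List.mem_cons_self
      have h2 := swap_br h c r (nd_of_brin h h1.1)
      have h3 := ih (w ++ [r]) (fun r' hr' => by
        rcases List.mem_append.mp hr' with h4 | h4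
        · exact hw r' h4
        · rw [List.mem_singleton.mp h4]; exact hr) (fun r' hr' =>
          hpost r' (List.mem_cons_of_mem _ hr')) h1.2
      have h4 := ox_zero_of_brin h (Xr x l * xp x w) (annW h l hl w hw) h1.1
      rw [xp_append, xp_cons, xp_nil, mul_one] at h3
      rw [xp_cons, ← mul_assoc, mul_assoc _ (xe x c) (xe x r), h2, mul_add, h4, add_zero,
        ← mul_assoc]
      rw [← mul_assoc] at h3
      exact h3

theorem okp_append {r : Pr} {l m : List Pr} (hr : okp r (m ++ l) = true) : okp r l = true := by
  induction m with
  | nil => exact hr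
  | cons a m ih =>
    rw [List.cons_append, okp, Bool.and_eq_true] at hr
    exact ih hr.2

/-- commutation -/
theorem com_aux (y : A) (g : Pr → Option Pr) (post l : List Pr) (hl : preB l = true)
    (hg : ∀ a ∈ l, y * xe x a = xe x a * y + ox x (g a))
    (hgn : ∀ a ∈ l, ∀ c, g a = some c → c.1 ≠ c.2)
    (hpost : ∀ r ∈ post, okp r l = true) (hc : cmB g post l = true) :
    y * Xr x l * xp x post = Xr x l * y * xp x post := by
  induction l generalizing post with
  | nil => show y * 1 * _ = 1 * y * _; rw [mul_one, one_mul]
  | cons a l ih =>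
    rw [preB, Bool.and_eq_true, Bool.and_eq_true] at hl
    obtain ⟨⟨h1, h2⟩, h3⟩ := hl
    rw [cmB, Bool.and_eq_true] at hc
    have hpost' : ∀ r ∈ a :: post, okp r l = true := by
      intro r hr
      rcases List.mem_cons.mp hr with rfl | hr
      · exact h2
      · have h4 := hpost r hr
        rw [okp, Bool.and_eq_true] at h4
        exact h4.2
    have h4 := ih (a :: post) h3 (fun a ha => hg a (List.mem_cons_of_mem _ ha))
      (fun a ha => hgn a (List.mem_cons_of_mem _ ha)) hpost' hc.2
    have h5 : Xr x l * ox x (g a) * xp x post = 0 := by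
      cases hga : g a with
      | none =>
        show Xr x l * 0 * _ = 0
        rw [mul_zero, zero_mul]
      | some c =>
        have h6 := hc.1
        rw [hga, Bool.or_eq_true] at h6
        rcases h6 with h6 | h6
        · have h7 := ann h l h3 c (of_decide_eq_true h6)
          show Xr x l * xe x c * _ = 0
          rw [h7, zero_mul]
        · have h7 := chk_zero h l h3 c (hgn a List.mem_cons_self c hga) [] post
            (fun r hr => by cases hr) (fun r hr => hpost' r (List.mem_cons_of_mem _ hr)) h6
          rw [xp_nil, mul_one] at h7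
          exact h7
    show y * (Xr x l * xe x a) * xp x post = Xr x l * xe x a * y * xp x post
    rw [xp_cons] at h4
    calc y * (Xr x l * xe x a) * xp x post = y * Xr x l * (xe x a * xp x post) := by
          simp only [mul_assoc]
      _ = Xr x l * y * (xe x a * xp x post) := h4
      _ = Xr x l * (y * xe x a) * xp x post := by simp only [mul_assoc]
      _ = Xr x l * (xe x a * y) * xp x post + Xr x l * ox x (g a) * xp x post := by
          rw [hg a List.mem_cons_self, mul_add, add_mul]
      _ = Xr x l * xe x a * y * xp x post := by rw [h5, add_zero]; simp only [mul_assoc]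

/-- commutation of a root vector with a product -/
theorem com_root (b : Pr) (l : List Pr) (hl : preB l = true)
    (hb : ∀ a ∈ l, nd b a = true) (hbn : ∀ a ∈ l, ∀ c, br b a = some c → c.1 ≠ c.2)
    (hc : cmB (br b) [] l = true) : xe x b * Xr x l = Xr x l * xe x b := by
  have h1 := com_aux h (xe x b) (br b) [] l hl (fun a ha => swap_br h b a (hb a ha)) hbn
    (fun r hr => by cases hr) hc
  rw [xp_nil, mul_one, mul_one] at h1
  exact h1

/-- a later element commutes with the product of the prefix -/
theorem com_okp (b : Pr) (l : List Pr) (hl : preB l = true) (hb : okp b l = true) :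
    xe x b * Xr x l = Xr x l * xe x b := by
  induction l with
  | nil => show _ * 1 = 1 * _; rw [mul_one, one_mul]
  | cons a l ih =>
    rw [preB, Bool.and_eq_true, Bool.and_eq_true] at hl
    obtain ⟨⟨h1, h2⟩, h3⟩ := hl
    rw [okp, Bool.and_eq_true] at hb
    have h4 := ih h3 hb.2
    have h5 : xe x b * xe x a = xe x a * xe x b + ox x (br a b) := by
      rw [swap_br h a b (nd_of_brin h hb.1), add_assoc, h.two, add_zero]
    have h6 := ox_zero_of_brin h (Xr x l) (ann h l h3) hb.1
    show xe x b * (Xr x l * xe x a) = Xr x l * xe x a * xe x b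
    rw [← mul_assoc, h4, mul_assoc, h5, mul_add, h6, add_zero, mul_assoc]

/-- left annihilation -/
theorem lann (l : List Pr) (hl : preB l = true) : ∀ c ∈ l, xe x c * Xr x l = 0 := by
  induction l with
  | nil => intro c hc; cases hc
  | cons b l ih =>
    rw [preB, Bool.and_eq_true, Bool.and_eq_true] at hl
    obtain ⟨⟨h1, h2⟩, h3⟩ := hl
    intro c hc
    show xe x c * (Xr x l * xe x b) = 0
    rcases List.mem_cons.mp hc with rfl | hc
    · have : xe x c * xe x c = 0 := h.sq _ _ (of_decide_eq_true h1)
      rw [← mul_assoc, com_okp h c l h3 h2, mul_assoc, this, mul_zero]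
    · rw [← mul_assoc, ih h3 c hc, zero_mul]

/-- the diagonal elements and a matrix unit -/
theorem diag_comm (i : Fin 6) (a : Pr) :
    x i i * xe x a = xe x a * x i i + (if (decide (i = a.1) ^^ decide (a.2 = i)) then xe x a else 0) := by
  have h1 := h.comm i i a.1 a.2
  have h2 : x i i * xe x a = xe x a * x i i + (x i i * xe x a + xe x a * x i i) := by
    have := h.two (xe x a * x i i)
    rw [add_comm (x i i * xe x a), ← add_assoc, this, zero_add]
  rw [h2]
  congr 1
  show x i i * x a.1 a.2 + x a.1 a.2 * x i i = _
  rw [h1]
  by_cases h3 : i = a.1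
  · by_cases h4 : a.2 = i
    · rw [if_pos h3, if_pos h4]
      simp only [h3.symm, h4, decide_true, Bool.xor_self, Bool.false_eq_true, if_false]
      exact h.two _
    · rw [if_pos h3, if_neg h4, add_zero]
      simp only [h3, decide_true, Bool.true_xor]
      rw [if_pos (by rw [← h3]; simp [h4])]
      rfl
  · by_cases h4 : a.2 = i
    · rw [if_neg h3, if_pos h4, zero_add]
      simp only [h3, h4, decide_false, decide_true, Bool.false_xor, if_true]
      rw [← h4]
      rfl
    · rw [if_neg h3, if_neg h4, add_zero]
      simp only [h3, h4, decide_false, Bool.xor_self, Bool.false_eq_true, if_false]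

/-- the parity of the number of the roots in `l` not orthogonal to `i` -/
def cnt (i : Fin 6) : List Pr → Bool
  | [] => false
  | a :: l => (decide (i = a.1) ^^ decide (a.2 = i)) ^^ cnt i l

theorem diag_xp (i : Fin 6) (l : List Pr) :
    x i i * xp x l = xp x l * x i i + (if cnt i l then xp x l else 0) := by
  induction l with
  | nil => rw [xp_nil, mul_one, one_mul]; simp [cnt]
  | cons a l ih =>
    rw [xp_cons, ← mul_assoc, diag_comm h i a, add_mul, mul_assoc, ih, mul_add, ← mul_assoc,
      add_assoc]
    congr 1
    rw [cnt]
    cases hb : (decide (i = a.1) ^^ decide (a.2 = i)) <;> cases hc : cnt i l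
    · simp
    · simp
    · simp
    · simp only [if_true, Bool.xor_self, Bool.false_eq_true, if_false]
      exact h.two _

end ring

end Pool.Agent.Q2.PIM
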