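import Pool.Agent.Helper700.Red.Defs

/-!
# Projective indecomposable modules of reduced enveloping algebras: definitions
-/

set_option autoImplicit false

noncomputable section

namespace Pool.Agent.Q2.PIM

attribute [local instance 100] LieRing.ofAssociativeRing

/-- `M` is indecomposable. -/
def Indec (A M : Type) [Ring A] [AddCommGroup M] [Module A M] : Prop :=
  Nontrivial M ∧ ∀ N₁ N₂ : Submodule A M, IsCompl N₁ N₂ → N₁ = ⊥ ∨ N₂ = ⊥

/-- The dimension over `k` of a module over the `k`-algebra `A`. -/
def kdim (k A M : Type) [Field k] [Ring A] [Algebra k A] [AddCommGroup M] [Module A M] : ℕ :=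
  @Module.finrank k M _ _ (Module.compHom M (algebraMap k A))

/-- The dimensions of the projective indecomposable (finitely generated) `A`-modules. -/
def pimDims (k A : Type) [Field k] [Ring A] [Algebra k A] : Set ℕ :=
  {d | ∃ (M : Type) (_ : AddCommGroup M) (_ : Module A M),
    Module.Finite A M ∧ Module.Projective A M ∧ Indec A M ∧ kdim k A M = d}

/-- The Lie algebra `pgl_n(k)`: the inner derivations of the algebra of `n × n` matrices. -/
abbrev pgl (n : ℕ) (k : Type) [Field k] :
    LieSubalgebra k (Module.End k (Matrix (Fin n) (Fin n) k)) :=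
  (LieAlgebra.ad k (Matrix (Fin n) (Fin n) k)).range

end Pool.Agent.Q2.PIM
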