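import Pool.Agent.Q2.PIM.Stm2
import Pool.Agent.Q153.PIM.Span
import Pool.Agent.Q153.PIM.Del
import Pool.Agent.Q203.PIM.Pgl

/-!
# Project PIM: the restricted enveloping algebra of `pgl_6` in characteristic two
-/

set_option autoImplicit false

namespace Pool.Agent.Q2.PIM

open scoped TensorProduct

open Pool.Agent.Helper700.Red

attribute [local instance 100] LieRing.ofAssociativeRing

theorem env_of_ind (hind : S_IND) : S_ENV := by
  intro k _ _
  obtain ⟨P, e, hsq, he, hbr, hP, hsum, hli, hspan⟩ := Pool.Agent.Q203.PIM.t_PGL k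
  obtain ⟨u, Δ, hu, hu2, hadj, hΔ, hlift⟩ := Pool.Agent.Q153.PIM.t_DEL k (pgl 6 k) P
  have htwo : ∀ (B : Type) [AddCommGroup B] [Module k B] (b : B), b + b = 0 := by
    intro B _ _ b
    have h1 : (2 : k) • b = 0 := by
      have h2 : (2 : k) = 0 := CharTwo.two_eq_zero
      rw [h2, zero_smul]
    rwa [two_smul] at h1
  -- the counit and the representation
  obtain ⟨ε, hε⟩ := hlift k (0 : pgl 6 k →ₗ[k] k) (by intro x y; simp) (by intro x; simp)
  obtain ⟨ρ, hρ⟩ := hlift (Module.End k (Matrix (Fin 6) (Fin 6) k))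
    ((pgl 6 k).toSubmodule.subtype) (by
      intro x y
      show ((⁅x, y⁆ : pgl 6 k) : Module.End k (Matrix (Fin 6) (Fin 6) k)) =
        (x : Module.End k (Matrix (Fin 6) (Fin 6) k)) * y + y * x
      rw [LieSubalgebra.coe_bracket, Ring.lie_def, sub_eq_iff_eq_add, add_assoc,
        htwo _ ((y : Module.End k (Matrix (Fin 6) (Fin 6) k)) *
          (x : Module.End k (Matrix (Fin 6) (Fin 6) k))), add_zero])
    (by
      intro x
      show ((P.toFun x : pgl 6 k) : Module.End k (Matrix (Fin 6) (Fin 6) k)) =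
        (x : Module.End k (Matrix (Fin 6) (Fin 6) k)) * x
      rw [hsq x, pow_two])
  refine ⟨P, hsq, fun i j => u (e i j), ⟨⟨fun a => htwo _ a, ?_, ?_, ?_, ?_⟩, ?_⟩⟩
  · intro i j r s
    rw [← hu, hbr, map_add]
    congr 1
    · split_ifs
      · rfl
      · exact map_zero u
    · split_ifs
      · rfl
      · exact map_zero u
  · intro i j hij
    rw [← hu2, hP, if_neg hij, map_zero]
  · intro i
    rw [← hu2, hP, if_pos rfl]
  · rw [← map_sum, hsum, map_zero]
  · intro L hL hmem
    obtain ⟨y, hy⟩ : ∃ y : {p : Fin 6 × Fin 6 // p ≠ (5, 5)} → RedEnv P 0,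
      y = fun p => u (e p.1.1 p.1.2) := ⟨_, rfl⟩
    obtain ⟨L', hL'⟩ : ∃ L' : List {p : Fin 6 × Fin 6 // p ≠ (5, 5)},
      L' = L.attach.map fun p => ⟨p.1, (hmem p.1).mp p.2⟩ := ⟨_, rfl⟩
    have h1 : L'.map Subtype.val = L := by
      rw [hL', List.map_map]
      exact List.attach_map_subtype_val L
    have h2 : L.map (fun p => u (e p.1 p.2)) = L'.map y := by
      conv_lhs => rw [← h1]
      rw [List.map_map, hy]
      rfl
    have h3 : L'.Nodup := by
      refine List.Nodup.of_map Subtype.val ?_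
      rw [h1]
      exact hL
    have h4 : ∀ i, i ∈ L' := by
      intro i
      have h5 : i.1 ∈ L'.map Subtype.val := by
        rw [h1]
        exact (hmem i.1).mpr i.2
      obtain ⟨j, hj, hji⟩ := List.mem_map.mp h5
      rwa [← Subtype.ext hji]
    have hus : ∀ v : pgl 6 k, u v ∈ Submodule.span k (Set.range y) := by
      intro v
      have h5 : v ∈ Submodule.span k (Set.range fun p : {p : Fin 6 × Fin 6 // p ≠ (5, 5)} =>
          e p.1.1 p.1.2) := by rw [hspan]; exact Submodule.mem_top
      have h6 := Submodule.mem_map_of_mem (f := u) h5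
      rw [Submodule.map_span, ← Set.range_comp] at h6
      rw [hy]
      exact h6
    rw [show (L.map fun p => (fun i j => u (e i j)) p.1 p.2) = L'.map y from h2]
    constructor
    · -- linear independence
      obtain ⟨b, hb⟩ : ∃ b : Module.Basis {p : Fin 6 × Fin 6 // p ≠ (5, 5)} k (pgl 6 k),
        ∀ p, b p = e p.1.1 p.1.2 :=
        ⟨Module.Basis.mk hli (by rw [hspan]), fun p => Module.Basis.mk_apply _ _ p⟩
      have hφ : ∀ j : {p : Fin 6 × Fin 6 // p ≠ (5, 5)},
          ∃ φ : Module.End k (Matrix (Fin 6) (Fin 6) k) →ₗ[k] k,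
            ∀ v : pgl 6 k, φ (v : Module.End k (Matrix (Fin 6) (Fin 6) k)) = b.coord j v := by
        intro j
        obtain ⟨φ, h6⟩ := LinearMap.exists_extend (p := (pgl 6 k).toSubmodule) (b.coord j)
        exact ⟨φ, fun v => LinearMap.congr_fun h6 v⟩
      choose φ hφ using hφ
      refine hind k (RedEnv P 0) _ y Δ (fun i => by rw [hy]; exact hΔ _)
        (fun j => (φ j) ∘ₗ ρ.toLinearMap - (φ j 1) • ε.toLinearMap) ?_ ?_ ?_ L' h3
      · intro j
        show φ j (ρ 1) - φ j 1 * ε 1 = 0
        have h5 : ρ 1 = 1 := map_one ρ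
        have h6 : ε 1 = 1 := map_one ε
        rw [h5, h6, mul_one, sub_self]
      · intro i j
        rw [hy]
        show φ j (ρ (u (e i.1.1 i.1.2))) - φ j 1 * ε (u (e i.1.1 i.1.2)) = _
        rw [hε, hρ]
        show φ j ((e i.1.1 i.1.2 : pgl 6 k) : Module.End k (Matrix (Fin 6) (Fin 6) k)) -
          φ j 1 * 0 = _
        rw [hφ, mul_zero, sub_zero, ← hb i, Module.Basis.coord_apply, Module.Basis.repr_self,
          Finsupp.single_apply]
      · intro h5
        have h6 : ε 1 = 0 := by rw [h5, map_zero]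
        rw [map_one] at h6
        exact one_ne_zero h6
    · refine Pool.Agent.Q153.PIM.t_SPAN k (RedEnv P 0) _ y ?_ ?_ ?_ L' h3 h4
      · intro i j
        rw [hy]
        show u (e i.1.1 i.1.2) * u (e j.1.1 j.1.2) + u (e j.1.1 j.1.2) * u (e i.1.1 i.1.2) ∈ _
        rw [← hu]
        rw [hy] at hus
        exact hus _
      · intro i
        rw [hy]
        show u (e i.1.1 i.1.2) * u (e i.1.1 i.1.2) ∈ _
        rw [← hu2]
        rw [hy] at hus
        exact hus _
      · rw [eq_top_iff, ← hadj]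
        refine Algebra.adjoin_le ?_
        rintro _ ⟨v, rfl⟩
        exact (Submodule.span_le.mpr (Algebra.subset_adjoin (R := k) (s := Set.range y)) :
          Submodule.span k (Set.range y) ≤
            Subalgebra.toSubmodule (Algebra.adjoin k (Set.range y))) (hus v)

end Pool.Agent.Q2.PIM
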