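import Pool.Agent.Q2.PIM.Ker
import Pool.Agent.Q153.PIM.Rng
import Pool.Agent.Q153.PIM.Cw
import Pool.Agent.Q225.PIM.SP
import Pool.Agent.Q203.PIM.Fit

/-!
# Project PIM: a projective module of dimension `3 * 2 ^ 17`
-/

set_option autoImplicit false

namespace Pool.Agent.Q2.PIM

/-- the dimension in terms of a compatible module structure -/
theorem kdim_eq (k A M : Type) [Field k] [Ring A] [Algebra k A] [AddCommGroup M] [Module A M]
    [i : Module k M] [IsScalarTower k A M] : kdim k A M = Module.finrank k M := by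
  have h : Module.compHom M (algebraMap k A) = i := by
    refine Module.ext' _ _ fun r m => ?_
    show (algebraMap k A r) • m = r • m
    rw [← algebraMap_smul A r m]
  rw [kdim, h]

/-- the Casimir element is central -/
theorem cas_comm (hcas : S_CAS) {k A : Type} [Field k] [Ring A] [Algebra k A]
    {x : Fin 6 → Fin 6 → A} (he : Env6 k x) (a : A) : cas x * a = a * cas x := by
  have h1 := (he.pbw ((List.finRange 6 ×ˢ List.finRange 6).filter fun p => p ≠ (5, 5))
    (by decide) (by decide)).2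
  have h2 : a ∈ W k (((List.finRange 6 ×ˢ List.finRange 6).filter fun p => p ≠ (5, 5)).map
      fun p => x p.1 p.2) := by rw [h1]; exact Submodule.mem_top
  induction h2 using Submodule.span_induction with
  | mem b hb =>
    obtain ⟨l, hl, rfl⟩ := hb
    have h3 : ∀ c ∈ l, ∃ i j, c = x i j := by
      intro c hc
      obtain ⟨p, -, hp⟩ := List.mem_map.mp (hl.subset hc)
      exact ⟨p.1, p.2, hp.symm⟩
    clear hl
    induction l with
    | nil => rw [List.prod_nil, mul_one, one_mul]
    | cons c l ih =>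
      obtain ⟨i, j, hc⟩ := h3 c List.mem_cons_self
      rw [List.prod_cons, ← mul_assoc, hc, hcas A x he.rel i j, mul_assoc,
        ih fun c hc => h3 c (List.mem_cons_of_mem _ hc), mul_assoc]
  | zero => rw [mul_zero, zero_mul]
  | add b c _ _ hb hc => rw [mul_add, add_mul, hb, hc]
  | smul r b _ hb => rw [mul_smul_comm, smul_mul_assoc, hb]

/-- the algebra is finite-dimensional -/
theorem fin_env {k A : Type} [Field k] [Ring A] [Algebra k A] {x : Fin 6 → Fin 6 → A}
    (he : Env6 k x) : Module.Finite k A := by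
  have h1 := (he.pbw ((List.finRange 6 ×ˢ List.finRange 6).filter fun p => p ≠ (5, 5))
    (by decide) (by decide)).2
  obtain ⟨L, hL⟩ : ∃ L : List A, L = (((List.finRange 6 ×ˢ List.finRange 6).filter
    fun p => p ≠ (5, 5)).map fun p => x p.1 p.2) := ⟨_, rfl⟩
  rw [← hL] at h1
  classical
  refine ⟨⟨(L.sublists.map List.prod).toFinset, ?_⟩⟩
  rw [← h1, W]
  congr 1
  ext a
  simp only [List.coe_toFinset, List.mem_map, List.mem_sublists, Set.mem_ofPred_eq]
  constructor
  · rintro ⟨l, h2, rfl⟩; exact ⟨l, h2, rfl⟩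
  · rintro ⟨l, h2, rfl⟩; exact ⟨l, h2, rfl⟩

/-- lowest weight vectors in a summand -/
theorem piece {k A : Type} [Field k] [Ring A] [Algebra k A] {x : Fin 6 → Fin 6 → A}
    (h : Rel6 x) {P : Type} [AddCommGroup P] [Module A P] [Module k P] [IsScalarTower k A P]
    [FiniteDimensional k P] (M₀ M₁ : Submodule A P) (hc : IsCompl M₀ M₁)
    (O : Finset (Fin 6 → Bool))
    (hO : ∀ μ ∈ O, ∃ m : P, xp x N15 • m ∈ M₀ ∧ xp x N15 • m ≠ 0 ∧ Wt x μ (xp x N15 • m)) :
    2 ^ 15 * O.card ≤ Module.finrank k M₀ := by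
  have hfd : FiniteDimensional k M₀ :=
    FiniteDimensional.of_injective (M₀.subtype.restrictScalars k) Subtype.val_injective
  refine Pool.Agent.Q153.PIM.t_RNG k A x h M₀ O ?_
  intro μ hμ
  obtain ⟨m, hm, hm0, hw⟩ := hO μ hμ
  obtain ⟨a, ha, b, hb, hab⟩ := Submodule.mem_sup.mp
    (show m ∈ M₀ ⊔ M₁ by rw [hc.sup_eq_top]; exact Submodule.mem_top)
  have h1 : xp x N15 • b = 0 := by
    have h2 : xp x N15 • b ∈ M₁ := M₁.smul_mem _ hb
    have h3 : xp x N15 • b ∈ M₀ := by
      have h4 : xp x N15 • b = xp x N15 • m - xp x N15 • a := by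
        rw [← hab, smul_add, add_sub_cancel_left]
      rw [h4]
      exact M₀.sub_mem hm (M₀.smul_mem _ ha)
    exact (Submodule.disjoint_def.mp hc.disjoint) _ h3 h2
  have h5 : xp x N15 • m = xp x N15 • a := by rw [← hab, smul_add, h1, add_zero]
  refine ⟨⟨a, ha⟩, ?_, ?_⟩
  · intro h6
    exact hm0 (by rw [h5]; exact congrArg Subtype.val h6)
  · intro i
    refine Subtype.ext ?_
    have h7 := hw i
    rw [h5] at h7
    show x i i • (xp x N15 • a) = _
    rw [h7]
    split_ifs
    · rfl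
    · rfl

/-- the dimensions of complementary submodules -/
theorem dim_compl {k A : Type} [Field k] [Ring A] [Algebra k A] {P : Type} [AddCommGroup P]
    [Module A P] [Module k P] [IsScalarTower k A P] [FiniteDimensional k P]
    (M₀ M₁ : Submodule A P) (hc : IsCompl M₀ M₁) :
    Module.finrank k M₀ + Module.finrank k M₁ = Module.finrank k P := by
  have h1 : IsCompl (M₀.restrictScalars k) (M₁.restrictScalars k) := by
    constructor
    · rw [Submodule.disjoint_def]
      exact fun v h2 h3 => (Submodule.disjoint_def.mp hc.disjoint) v h2 h3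
    · rw [codisjoint_iff, Submodule.eq_top_iff']
      intro v
      obtain ⟨a, ha, b, hb, hab⟩ := Submodule.mem_sup.mp
        (show v ∈ M₀ ⊔ M₁ by rw [hc.sup_eq_top]; exact Submodule.mem_top)
      exact Submodule.mem_sup.mpr ⟨a, ha, b, hb, hab⟩
  exact Submodule.finrank_add_eq_of_isCompl h1

/-- existence -/
theorem exist (hcas : S_CAS) (k A : Type) [Field k] [Ring A] [Algebra k A]
    (x : Fin 6 → Fin 6 → A) (he : Env6 k x) :
    ∃ (M : Type) (_ : AddCommGroup M) (_ : Module A M), Module.Finite A M ∧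
      Module.Projective A M ∧ kdim k A M = 3 * 2 ^ 17 := by
  have h := he.rel
  have hfin := fin_env he
  obtain ⟨hy1, hy2, hy3⟩ := Pool.Agent.Q153.PIM.t_YR A x h
  obtain ⟨y, hy⟩ : ∃ y, y = yy x := ⟨_, rfl⟩
  have hnz := Pool.Agent.Q153.PIM.t_NZ k A x he
  rw [← hy] at hy1 hy2 hy3 hnz
  obtain ⟨r, hr⟩ : ∃ r, r = xp x F5 * y := ⟨_, rfl⟩
  rw [← hr] at hy3
  obtain ⟨P, hP⟩ : ∃ P : Submodule A A, P = LinearMap.range (LinearMap.toSpanSingleton A A y) :=
    ⟨_, rfl⟩
  have hmemP : ∀ a, a ∈ P ↔ ∃ b, b * y = a := by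
    intro a
    rw [hP]
    exact Iff.rfl
  have hyP : ∀ a, a * y ∈ P := fun a => (hmemP _).mpr ⟨a, rfl⟩
  have hproj : Module.Projective A P := by
    refine Module.Projective.of_split P.subtype
      (LinearMap.codRestrict P (LinearMap.toSpanSingleton A A r) ?_) ?_
    · intro a
      show a * r ∈ P
      rw [hr, ← mul_assoc]
      exact hyP _
    · ext v
      obtain ⟨a, ha⟩ := (hmemP _).mp v.2
      show (v : A) * r = v
      rw [← ha, mul_assoc, hy3]
  have hdim : Module.finrank k P ≤ 2 ^ 20 := by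
    have h1 := Pool.Agent.Q225.PIM.t_SP k A x he y hy1 (by
      intro i
      rw [hy2 i]
      split_ifs
      · exact Or.inr rfl
      · exact Or.inl rfl)
    have h2 : LinearMap.range (LinearMap.mulRight k y) = P.restrictScalars k := by
      ext a
      rw [Submodule.restrictScalars_mem, hmemP]
      exact Iff.rfl
    rw [h2] at h1
    exact h1
  have hfP : Module.Finite A P := by
    rw [hP]
    infer_instance
  obtain ⟨n, M₀, M₁, hn, hc, hp1, hf1, hm1, hm0⟩ := Pool.Agent.Q203.PIM.t_FIT k A (cas x)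
    (cas_comm hcas he) P
  obtain ⟨O₀, O₁, hc0, hc1, hv0, hv1, hO⟩ := Pool.Agent.Q153.PIM.t_WTS A x h y hy2
  -- the vectors
  have hvec : ∀ μ ∈ O₀ ∪ O₁, ∃ m : P, xp x N15 • m ≠ 0 ∧ Wt x μ (xp x N15 • m) ∧
      cas x • (xp x N15 • m) = if cv μ then xp x N15 • m else 0 := by
    intro μ hμ
    obtain ⟨l, hl, hw⟩ := hO μ hμ
    have hw' : Wt x μ (xp x N15 • (⟨xp x l * y, hyP _⟩ : P)) := by
      intro i
      refine Subtype.ext ?_
      show x i i * (xp x N15 * (xp x l * y)) = _
      have h7 : x i i * (xp x N15 * (xp x l * y)) =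
        if μ i then xp x N15 * (xp x l * y) else 0 := hw i
      rw [h7]
      split_ifs
      · rfl
      · rfl
    have hlow : Low x (xp x N15 • (⟨xp x l * y, hyP _⟩ : P)) := by
      intro i j hij
      have h8 : x i j * xp x N15 = 0 := by
        have h9 := lann h N15.reverse (by decide) (i, j) (by revert i j; decide)
        rw [Xr_eq, List.reverse_reverse] at h9
        exact h9
      rw [smul_smul, h8, zero_smul]
    refine ⟨⟨xp x l * y, hyP _⟩, ?_, hw', ?_⟩
    · intro h8
      exact hnz l hl (congrArg Subtype.val h8)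
    · exact Pool.Agent.Q153.PIM.t_CW A x h P μ _ hlow hw'
  have hd0 : 2 ^ 15 * O₀.card ≤ Module.finrank k M₀ := by
    refine piece h M₀ M₁ hc O₀ ?_
    intro μ hμ
    obtain ⟨m, h1, h2, h3⟩ := hvec μ (Finset.mem_union_left _ hμ)
    refine ⟨m, ?_, h1, h2⟩
    rw [hm0]
    rw [hv0 μ hμ] at h3
    obtain ⟨n', rfl⟩ := Nat.exists_eq_succ_of_ne_zero hn.ne'
    rw [pow_succ, mul_smul, h3]
    simp
  have hd1 : 2 ^ 15 * O₁.card ≤ Module.finrank k M₁ := by
    refine piece h M₁ M₀ hc.symm O₁ ?_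
    intro μ hμ
    obtain ⟨m, h1, h2, h3⟩ := hvec μ (Finset.mem_union_right _ hμ)
    refine ⟨m, ?_, h1, h2⟩
    rw [hm1]
    rw [hv1 μ hμ] at h3
    refine ⟨xp x N15 • m, ?_⟩
    have h4 : ∀ j : ℕ, cas x ^ j • (xp x N15 • m) = xp x N15 • m := by
      intro j
      induction j with
      | zero => rw [pow_zero, one_smul]
      | succ j ih =>
        rw [pow_succ, mul_smul, h3]
        exact ih
    exact (h4 n).symm
  have hsum := dim_compl (k := k) M₀ M₁ hc
  refine ⟨M₁, inferInstance, inferInstance, hf1, hp1, ?_⟩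
  rw [kdim_eq, hc1] at *
  rw [hc0] at hd0
  norm_num at hd0 hd1 hdim ⊢
  omega

end Pool.Agent.Q2.PIM
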