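import Pool.Agent.Q2.PIM.LB
import Pool.Agent.Q2.PIM.Ex
import Pool.Agent.Q2.PIM.Env
import Pool.Agent.Q95.PIM.IND
import Pool.Agent.Q225.PIM.CAS
import Pool.Agent.Q68.PIM.MQ
import Pool.Agent.Q182.PIM.Lbo

/-!
# Project PIM: the final theorem
-/

set_option autoImplicit false

namespace Pool.Agent.Q2.PIM

open Pool.Agent.Helper700.Red

attribute [local instance 100] LieRing.ofAssociativeRing

theorem main (k : Type) [Field k] [CharP k 2] :
    ∃ P : PMap 2 k (pgl 6 k),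
      (∀ x : pgl 6 k, ((P.toFun x : pgl 6 k) : Module.End k (Matrix (Fin 6) (Fin 6) k)) =
        (x : Module.End k (Matrix (Fin 6) (Fin 6) k)) ^ 2) ∧
      ∃ m q : ℕ, IsLeast (pimDims k (RedEnv P 0)) m ∧
        IsGreatest {n | (∃ r, n = 2 ^ r) ∧ ∀ d ∈ pimDims k (RedEnv P 0), n ∣ d} q ∧
        6 * 2 ^ 15 ≤ m ∧ q ≤ 2 ^ 17 := by
  obtain ⟨P, hsq, x, he⟩ := env_of_ind Pool.Agent.Q95.PIM.t_IND k
  refine ⟨P, hsq, ?_⟩
  have hfin := fin_env he
  obtain ⟨M, _, _, hM1, hM2, hM3⟩ := exist Pool.Agent.Q225.PIM.t_CAS k (RedEnv P 0) x he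
  have hlow : ∀ d ∈ pimDims k (RedEnv P 0), 6 * 2 ^ 15 ≤ d := by
    rintro d ⟨N, i1, i2, h1, h2, h3, rfl⟩
    let i3 : Module k N := Module.compHom N (algebraMap k (RedEnv P 0))
    have : IsScalarTower k (RedEnv P 0) N := ⟨fun r a v => by
      change (r • a) • v = (algebraMap k (RedEnv P 0) r) • (a • v)
      rw [Algebra.smul_def, mul_smul]⟩
    have : Module.Finite k N := Module.Finite.trans (RedEnv P 0) N
    have := h3.1
    exact lower Pool.Agent.Q182.PIM.t_LBO Pool.Agent.Q153.PIM.t_RNG k (RedEnv P 0) x he N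
  have hks : ∀ n : ℕ, (∀ d ∈ pimDims k (RedEnv P 0), n ∣ d) → n ∣ 3 * 2 ^ 17 := by
    intro n hn
    rw [← hM3]
    exact Pool.Agent.Q203.PIM.t_KS k (RedEnv P 0) n hn M
  obtain ⟨m, q, h1, h2, h3⟩ := Pool.Agent.Q68.PIM.t_MQ (pimDims k (RedEnv P 0)) (6 * 2 ^ 15)
    (3 * 2 ^ 17) (by
      by_contra h4
      rw [Set.not_nonempty_iff_eq_empty] at h4
      have h5 := hks 0 (by rw [h4]; intro d hd; exact hd.elim)
      norm_num at h5) hlow (by norm_num) hks rfl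
  refine ⟨m, q, h1, h2, hlow m h1.1, ?_⟩
  obtain ⟨⟨r, hr⟩, h5⟩ := h2.1
  have h6 : q ∣ 3 * 2 ^ 17 := hks q h5
  rw [hr] at h6 ⊢
  have h7 : Nat.Coprime (2 ^ r) 3 := Nat.Coprime.pow_left r (by norm_num)
  exact Nat.le_of_dvd (by norm_num) (h7.dvd_of_dvd_mul_left h6)

end Pool.Agent.Q2.PIM
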