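import Pool.Agent.Q2.PIM.Def

/-!
# Project PIM: the two numbers
-/

set_option autoImplicit false

noncomputable section

namespace Pool.Agent.Q2.PIM

open Pool.Agent.Helper700.Red

attribute [local instance 100] LieRing.ofAssociativeRing

/-- The smallest dimension `m` of a projective indecomposable `A`-module and the largest power `q`
of `p` that divides the dimensions of all projective indecomposable `A`-modules satisfy
`m ≠ q`, `a ≤ m` and `q ≤ b`. -/
def PimGap (p : ℕ) (k A : Type) [Field k] [Ring A] [Algebra k A] (a b : ℕ) : Prop :=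
  ∃ m q : ℕ, IsLeast (pimDims k A) m ∧
    IsGreatest {n | (∃ r, n = p ^ r) ∧ ∀ d ∈ pimDims k A, n ∣ d} q ∧ m ≠ q ∧ a ≤ m ∧ q ≤ b

/-- The Lie algebra `L` is finite-dimensional and `PimGap` holds for the reduced enveloping algebra
of `L` with the `p`-map `P` and the character `χ`. -/
def RedGap {p : ℕ} {k L : Type} [Field k] [LieRing L] [LieAlgebra k L] (P : PMap p k L)
    (χ : Module.Dual k L) (a b : ℕ) : Prop :=
  Module.Finite k L ∧ PimGap p k (RedEnv P χ) a b

/-- The `p`-map of the Lie subalgebra `L` of the associative algebra `E` is `x ↦ x ^ p`. -/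
def IsPow {p : ℕ} {k E : Type} [Field k] [Ring E] [Algebra k E] {L : LieSubalgebra k E}
    (P : PMap p k L) : Prop :=
  ∀ x : L, (P.toFun x).1 = x.1 ^ p

/-- The Lie subalgebra `L` of the associative algebra `E` is restricted with the `p`-map `x ↦ x ^ p`,
and `RedGap` holds for `L` and `χ = 0`. -/
def SubGap (p : ℕ) {k E : Type} [Field k] [Ring E] [Algebra k E] (L : LieSubalgebra k E)
    (a b : ℕ) : Prop :=
  ∃ P : PMap p k L, IsPow P ∧ RedGap P 0 a b

/-- `SubGap` holds for the Lie algebra of the inner derivations of the `k`-algebra `B`. -/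
def InnerGap (p : ℕ) (k B : Type) [Field k] [Ring B] [Algebra k B] (a b : ℕ) : Prop :=
  SubGap p (LieAlgebra.ad k B).range a b

end Pool.Agent.Q2.PIM
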