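import Pool.Agent.Q2.PIM.Stm2

/-!
# Project PIM: kernels of root vectors
-/

set_option autoImplicit false

namespace Pool.Agent.Q2.PIM

section gen

variable {k A : Type} [Field k] [Ring A] [Algebra k A]

theorem W_le_cons (x : A) (L : List A) : W k L ≤ W k (x :: L) :=
  Submodule.span_mono (by rintro a ⟨l, hl, rfl⟩; exact ⟨l, hl.cons x, rfl⟩)

theorem mul_W (x : A) (L : List A) {w : A} (hw : w ∈ W k L) : x * w ∈ W k (x :: L) := by
  induction hw using Submodule.span_induction with
  | mem a ha =>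
    obtain ⟨l, hl, rfl⟩ := ha
    exact Submodule.subset_span ⟨x :: l, hl.cons_cons x, by rw [List.prod_cons]⟩
  | zero => rw [mul_zero]; exact Submodule.zero_mem _
  | add a b _ _ ha hb => rw [mul_add]; exact Submodule.add_mem _ ha hb
  | smul c a _ ha => rw [mul_smul_comm]; exact Submodule.smul_mem _ c ha

theorem mem_W_cons {x : A} {L : List A} {y : A} (hy : y ∈ W k (x :: L)) :
    ∃ w ∈ W k L, ∃ w' ∈ W k L, y = w + x * w' := by
  induction hy using Submodule.span_induction with
  | mem a ha =>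
    obtain ⟨l, hl, rfl⟩ := ha
    rcases List.sublist_cons_iff.mp hl with h1 | ⟨r, rfl, h1⟩
    · exact ⟨_, Submodule.subset_span ⟨l, h1, rfl⟩, 0, Submodule.zero_mem _, by simp⟩
    · exact ⟨0, Submodule.zero_mem _, _, Submodule.subset_span ⟨r, h1, rfl⟩, by simp⟩
  | zero => exact ⟨0, Submodule.zero_mem _, 0, Submodule.zero_mem _, by simp⟩
  | add a b _ _ ha hb =>
    obtain ⟨w, hw, w', hw', rfl⟩ := ha
    obtain ⟨v, hv, v', hv', rfl⟩ := hb
    exact ⟨w + v, Submodule.add_mem _ hw hv, w' + v', Submodule.add_mem _ hw' hv', by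
      rw [mul_add]; abel⟩
  | smul c a _ ha =>
    obtain ⟨w, hw, w', hw', rfl⟩ := ha
    exact ⟨c • w, Submodule.smul_mem _ c hw, c • w', Submodule.smul_mem _ c hw', by
      rw [smul_add, mul_smul_comm]⟩

theorem add_mul_W {x : A} {L : List A} {w w' : A} (hw : w ∈ W k L) (hw' : w' ∈ W k L) :
    w + x * w' ∈ W k (x :: L) :=
  Submodule.add_mem _ (W_le_cons x L hw) (mul_W x L hw')

theorem PBW_suffix (l B : List A) (h : PBW k (l ++ B)) : PBW k B := by
  induction l with
  | nil => exact h
  | cons a l ih => exact ih h.1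

/-- commuting idempotents -/
theorem idem_W (T N : List A) (hc : ∀ s ∈ T, ∀ t ∈ T, s * t = t * s) (hi : ∀ t ∈ T, t * t = t) :
    ∀ t ∈ T, ∀ w ∈ W k (T ++ N), t * w ∈ W k (T ++ N) := by
  induction T with
  | nil => intro t ht; cases ht
  | cons s T ih =>
    intro t ht w hw
    have ih' := ih (fun a ha b hb => hc a (List.mem_cons_of_mem _ ha) b (List.mem_cons_of_mem _ hb))
      (fun a ha => hi a (List.mem_cons_of_mem _ ha))
    obtain ⟨w0, hw0, w1, hw1, rfl⟩ := mem_W_cons (L := T ++ N) hw
    rcases List.mem_cons.mp ht with rfl | ht'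
    · have : t * (w0 + t * w1) = 0 + t * (w0 + w1) := by
        rw [mul_add, ← mul_assoc, hi t List.mem_cons_self, zero_add, mul_add]
      rw [this]
      exact add_mul_W (Submodule.zero_mem _) (Submodule.add_mem _ hw0 hw1)
    · have : t * (w0 + s * w1) = t * w0 + s * (t * w1) := by
        rw [mul_add, ← mul_assoc, hc t ht s List.mem_cons_self, mul_assoc]
      rw [this]
      exact add_mul_W (ih' t ht' w0 hw0) (ih' t ht' w1 hw1)

end gen

section ker

variable {k A : Type} [Field k] [Ring A] [Algebra k A] {x : Fin 6 → Fin 6 → A}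

theorem rev_cons_append {α : Type} (b : α) (l B : List α) :
    (b :: l).reverse ++ B = l.reverse ++ (b :: B) := by
  rw [List.reverse_cons, List.append_assoc]
  rfl

theorem map_suffix (l B : List Pr) (h : PBW k ((l ++ B).map (xe x))) :
    PBW k (B.map (xe x)) := by
  rw [List.map_append] at h
  exact PBW_suffix _ _ h

/-- the product of a prefix is injective -/
theorem Xr_inj (l B : List Pr) (hP : PBW k ((l.reverse ++ B).map (xe x))) :
    ∀ z ∈ W k (B.map (xe x)), Xr x l * z = 0 → z = 0 := by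
  induction l generalizing B with
  | nil =>
    intro z _ hz
    rwa [Xr, one_mul] at hz
  | cons b l ih =>
    intro z hz h0
    rw [rev_cons_append] at hP
    rw [Xr, mul_assoc] at h0
    have h1 := ih (b :: B) hP (xe x b * z) (mul_W _ _ hz) h0
    have h2 : PBW k ((b :: B).map (xe x)) := map_suffix _ _ hP
    rw [List.map_cons] at h2
    exact (h2.2 0 (Submodule.zero_mem _) z hz (by rw [h1, add_zero])).2

/-- the kernel of a prefix -/
theorem ker (h : Rel6 x) (l B : List Pr) (hl : preB l = true)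
    (hP : PBW k ((l.reverse ++ B).map (xe x))) :
    ∀ y ∈ W k ((l.reverse ++ B).map (xe x)), (∀ b ∈ l, xe x b * y = 0) →
      ∃ z ∈ W k (B.map (xe x)), y = Xr x l * z := by
  induction l generalizing B with
  | nil =>
    intro y hy _
    exact ⟨y, hy, by rw [Xr, one_mul]⟩
  | cons b l ih =>
    intro y hy hb
    rw [rev_cons_append] at hP hy
    have hl' := hl
    rw [preB, Bool.and_eq_true, Bool.and_eq_true] at hl'
    obtain ⟨⟨h1, h2⟩, h3⟩ := hl'
    obtain ⟨z, hz, rfl⟩ := ih (b :: B) h3 hP y hy fun c hc => hb c (List.mem_cons_of_mem _ hc)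
    rw [List.map_cons] at hz
    obtain ⟨w, hw, w', hw', rfl⟩ := mem_W_cons hz
    have h4 : xe x b * xe x b = 0 := h.sq _ _ (of_decide_eq_true h1)
    have h5 := hb b List.mem_cons_self
    have h6 : xe x b * (w + xe x b * w') = xe x b * w := by
      rw [mul_add, ← mul_assoc, h4, zero_mul, add_zero]
    rw [← mul_assoc, com_okp h b l h3 h2, mul_assoc, h6] at h5
    have h7 := Xr_inj l (b :: B) hP _ (by rw [List.map_cons]; exact mul_W _ _ hw) h5
    have h8 : PBW k ((b :: B).map (xe x)) := map_suffix _ _ hP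
    rw [List.map_cons] at h8
    have h9 := (h8.2 0 (Submodule.zero_mem _) w hw (by rw [h7, add_zero])).2
    refine ⟨w', hw', ?_⟩
    rw [h9, zero_add, Xr, mul_assoc]

end ker

/-- KX -/
theorem t_KX : S_KX := by
  intro k A _ _ _ x he y hy
  have h1 := he.pbw (N15.reverse.reverse ++
    ((List.finRange 6 ×ˢ List.finRange 6).filter fun p => p.1 ≤ p.2 ∧ p ≠ (5, 5)))
    (by decide) (by decide)
  obtain ⟨z, hz, h2⟩ := ker he.rel N15.reverse _ (by decide) h1.1 y
    (by
      show y ∈ W k _
      have h3 := h1.2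
      exact (Submodule.eq_top_iff'.mp h3) y)
    (fun b hb => hy b.1 b.2 ((by decide : ∀ b ∈ N15.reverse, b.2 < b.1) b hb))
  rw [Xr_eq, List.reverse_reverse] at h2
  exact ⟨z, h2⟩

end Pool.Agent.Q2.PIM
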