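import Pool.Agent.Q2.PIM.Stm2

/-!
# Project PIM: transfer to projective modules
-/

set_option autoImplicit false

namespace Pool.Agent.Q2.PIM

theorem t_TRF : S_TRF := by
  intro A _ Bs Cs a hA P _ _ hP p hp
  obtain ⟨s, hs⟩ := Module.projective_def'.mp hP
  have h1 : ∀ q, ∀ b ∈ Bs, b * (s p) q = 0 := by
    intro q b hb
    have h2 : s (b • p) = 0 := by rw [hp b hb, map_zero]
    rw [map_smul] at h2
    have h3 := congrArg (fun u => u q) h2
    exact h3
  choose z hz hz' using fun q => hA (s p q) (h1 q)
  refine ⟨∑ q ∈ (s p).support, z q • q, ?_, ?_⟩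
  · intro c hc
    rw [Finset.smul_sum]
    refine Finset.sum_eq_zero fun q _ => ?_
    rw [smul_smul, hz q c hc, zero_smul]
  · rw [Finset.smul_sum]
    have h2 : p = (Finsupp.linearCombination A id) (s p) := by
      have := LinearMap.congr_fun hs p
      exact this.symm
    conv_lhs => rw [h2]
    rw [Finsupp.linearCombination_apply, Finsupp.sum]
    refine Finset.sum_congr rfl fun q _ => ?_
    rw [smul_smul, ← hz' q]
    rfl

end Pool.Agent.Q2.PIM
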