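import Pool.Agent.Q2.PIM.SI
import Pool.Agent.Q2.PIM.Trf
import Pool.Agent.Q68.PIM.ORB

/-!
# Project PIM: the lower bound
-/

set_option autoImplicit false

namespace Pool.Agent.Q2.PIM

/-- vectors killed by the negative roots are in the image of the product -/
theorem low_mem {k A : Type} [Field k] [Ring A] [Algebra k A] {x : Fin 6 → Fin 6 → A}
    (he : Env6 k x) {M : Type} [AddCommGroup M] [Module A M] [Module.Projective A M] (v : M)
    (hv : Low x v) : ∃ m : M, v = xp x N15 • m := by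
  obtain ⟨m, -, hm⟩ := t_TRF A {b | ∃ i j : Fin 6, j < i ∧ b = x i j} ∅ (xp x N15)
    (fun y hy => by
      obtain ⟨z, hz⟩ := t_KX k A x he y fun a b hab => hy _ ⟨a, b, hab, rfl⟩
      exact ⟨z, fun c hc => hc.elim, hz⟩) M v
    (by
      rintro _ ⟨i, j, hij, rfl⟩
      exact hv i j hij)
  exact ⟨m, hm⟩

/-- the lower bound -/
theorem lower (hlbo : S_LBO) (hrng : S_RNG) (k A : Type) [Field k] [Ring A] [Algebra k A]
    (x : Fin 6 → Fin 6 → A) (he : Env6 k x) (M : Type) [AddCommGroup M] [Module A M]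
    [Module.Projective A M] [Nontrivial M] [Module k M] [IsScalarTower k A M]
    [FiniteDimensional k M] : 6 * 2 ^ 15 ≤ Module.finrank k M := by
  obtain ⟨O, h1, h2, h3, h4⟩ := hlbo A x he.rel M (by
    intro i v hv hev hhv
    obtain ⟨z, hz, hz'⟩ := t_TRF A ({b | ∃ i j : Fin 6, j < i ∧ b = x i j} ∪
        {x i.castSucc i.succ, x i.castSucc i.castSucc + x i.succ i.succ})
      {c | ∃ a b : Fin 6, b < a ∧ ¬ (a = i.succ ∧ b = i.castSucc) ∧ c = x a b}
      (x i.castSucc i.succ * x i.succ i.castSucc)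
      (fun y hy => by
        obtain ⟨z, hz, hz'⟩ := t_SI k A x he i y
          (fun a b hab => hy _ (Or.inl ⟨a, b, hab, rfl⟩))
          (hy _ (Or.inr (Or.inl rfl))) (hy _ (Or.inr (Or.inr rfl)))
        refine ⟨z, ?_, hz'⟩
        rintro _ ⟨a, b, hab, hn, rfl⟩
        exact hz a b hab hn) M v
      (by
        rintro _ (⟨a, b, hab, rfl⟩ | rfl | rfl)
        · exact hv a b hab
        · exact hev
        · exact hhv)
    refine ⟨z, fun a b hab hn => hz _ ⟨a, b, hab, hn, rfl⟩, ?_⟩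
    rw [smul_smul]
    exact hz')
  have h5 := Pool.Agent.Q68.PIM.t_ORB O h1 h2 h3
  have h6 := hrng k A x he.rel M O (by
    intro μ hμ
    obtain ⟨v, hv0, hv, hw⟩ := h4 μ hμ
    obtain ⟨m, hm⟩ := low_mem he v hv
    exact ⟨m, by rw [← hm]; exact hv0, by rw [← hm]; exact hw⟩)
  calc 6 * 2 ^ 15 ≤ O.card * 2 ^ 15 := Nat.mul_le_mul_right _ h5
    _ = 2 ^ 15 * O.card := Nat.mul_comm _ _
    _ ≤ _ := h6

end Pool.Agent.Q2.PIM
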