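import Pool.Agent.Q2.PIM.Ker

/-!
# Project PIM: the minimal parabolic subalgebras
-/

set_option autoImplicit false

namespace Pool.Agent.Q2.PIM

/-- the nilradical, in a good order -/
def Al : Fin 5 → List Pr
  | 0 => [(5, 0), (5, 1), (4, 0), (4, 1), (5, 2), (3, 0), (3, 1), (4, 2), (5, 3), (2, 0), (2, 1),
      (3, 2), (4, 3), (5, 4)]
  | 1 => [(5, 0), (4, 0), (5, 1), (5, 2), (3, 0), (4, 1), (4, 2), (5, 3), (2, 0), (3, 1), (1, 0),
      (3, 2), (4, 3), (5, 4)]
  | 2 => [(5, 0), (4, 0), (5, 1), (3, 0), (4, 1), (5, 2), (2, 0), (5, 3), (3, 1), (4, 2), (1, 0),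
      (2, 1), (4, 3), (5, 4)]
  | 3 => [(5, 0), (4, 0), (5, 1), (3, 0), (4, 1), (5, 2), (2, 0), (3, 1), (4, 2), (5, 3), (1, 0),
      (2, 1), (3, 2), (5, 4)]
  | 4 => [(5, 0), (4, 0), (5, 1), (3, 0), (4, 1), (5, 2), (2, 0), (3, 1), (4, 2), (5, 3), (1, 0),
      (2, 1), (3, 2), (4, 3)]

/-- the positive roots different from the `i`-th -/
def Nl (i : Fin 5) : List Pr := PP.filter fun p => p ≠ (i.castSucc, i.succ)

/-- the diagonal part -/
def Tl : List Pr := [(0, 0), (1, 1), (2, 2), (3, 3), (4, 4)]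

theorem dec_pre : ∀ i, preB (Al i).reverse = true := by decide

theorem dec_f : ∀ i, okp (i.succ, i.castSucc) (Al i).reverse = true := by decide

theorem dec_e1 : ∀ i, ∀ a ∈ (Al i).reverse, nd (i.castSucc, i.succ) a = true := by decide

theorem dec_e2 : ∀ i, ∀ a ∈ (Al i).reverse, ∀ c, br (i.castSucc, i.succ) a = some c →
    c.1 ≠ c.2 := by decide

theorem dec_e3 : ∀ i, cmB (br (i.castSucc, i.succ)) [] (Al i).reverse = true := by decide

theorem dec_nodup : ∀ i, ((Al i).reverse.reverse ++
    ((i.succ, i.castSucc) :: (i.castSucc, i.succ) :: (Tl ++ Nl i))).Nodup := by decide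

theorem dec_mem : ∀ i p, p ∈ ((Al i).reverse.reverse ++
    ((i.succ, i.castSucc) :: (i.castSucc, i.succ) :: (Tl ++ Nl i))) ↔ p ≠ (5, 5) := by decide

theorem dec_Al : ∀ i : Fin 5, ∀ a b : Fin 6, (b < a ∧ ¬ (a = i.succ ∧ b = i.castSucc)) ↔
    (a, b) ∈ (Al i).reverse := by decide

theorem dec_ne : ∀ i : Fin 5, i.castSucc ≠ i.succ := by decide

theorem dec_lt : ∀ i : Fin 5, i.castSucc < i.succ := by decide

theorem dec_cnt : ∀ i : Fin 5, cnt i.castSucc (Al i) = cnt i.succ (Al i) := by decide

section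

variable {k A : Type} [Field k] [Ring A] [Algebra k A] {x : Fin 6 → Fin 6 → A}

/-- the diagonal elements preserve the diagonal part -/
theorem diagW (h : Rel6 x) (N : List Pr) (j : Fin 6) :
    ∀ w ∈ W k ((Tl ++ N).map (xe x)), x j j * w ∈ W k ((Tl ++ N).map (xe x)) := by
  have hcm : ∀ i j : Fin 6, x i i * x j j = x j j * x i i := by
    intro i j
    by_cases hij : i = j
    · rw [hij]
    · have h1 := h.comm i i j j
      rw [if_neg hij, if_neg (fun h2 => hij h2.symm), add_zero] at h1
      have h2 := h.two (x j j * x i i)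
      calc x i i * x j j = x i i * x j j + (x j j * x i i + x j j * x i i) := by
            rw [h2, add_zero]
        _ = (x i i * x j j + x j j * x i i) + x j j * x i i := by rw [add_assoc]
        _ = x j j * x i i := by rw [h1, zero_add]
  have hT : ∀ t ∈ Tl.map (xe x), ∃ j : Fin 6, t = x j j := by
    intro t ht
    obtain ⟨p, hp, rfl⟩ := List.mem_map.mp ht
    refine ⟨p.1, ?_⟩
    have h2 : p.2 = p.1 := (by decide : ∀ p ∈ Tl, p.2 = p.1) p hp
    show x p.1 p.2 = _
    rw [h2]
  rw [List.map_append]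
  have key := idem_W (k := k) (Tl.map (xe x)) (N.map (xe x))
    (by
      intro s hs t ht
      obtain ⟨i, rfl⟩ := hT s hs
      obtain ⟨j, rfl⟩ := hT t ht
      exact hcm i j)
    (by
      intro t ht
      obtain ⟨j, rfl⟩ := hT t ht
      exact h.idem j)
  have hj : ∀ j : Fin 6, j ≠ 5 → ∀ w ∈ W k (Tl.map (xe x) ++ N.map (xe x)),
      x j j * w ∈ W k (Tl.map (xe x) ++ N.map (xe x)) := by
    intro j hj
    refine key (x j j) (List.mem_map.mpr ⟨(j, j), ?_, rfl⟩)
    revert j
    decide
  by_cases h5 : j = 5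
  · intro w hw
    subst h5
    have hs := h.sum
    rw [Fin.sum_univ_castSucc] at hs
    have h6 : x 5 5 = ∑ i : Fin 5, x i.castSucc i.castSucc := by
      have h7 := h.two (x 5 5)
      have h8 : ∑ i : Fin 5, x i.castSucc i.castSucc + x 5 5 = 0 := hs
      calc x 5 5 = (∑ i : Fin 5, x i.castSucc i.castSucc + x 5 5) + x 5 5 := by
            rw [h8, zero_add]
        _ = ∑ i : Fin 5, x i.castSucc i.castSucc := by rw [add_assoc, h7, add_zero]
    rw [h6, Finset.sum_mul]
    exact Submodule.sum_mem _ fun i _ => hj _ (by revert i; decide) w hw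
  · exact hj j h5

end

/-- SI -/
theorem t_SI : S_SI := by
  intro k A _ _ _ x he i y hy hey hhy
  have h := he.rel
  obtain ⟨l, hl⟩ : ∃ l, l = (Al i).reverse := ⟨_, rfl⟩
  obtain ⟨hP, hW⟩ := he.pbw _ (dec_nodup i) (dec_mem i)
  have hP' : PBW k ((l.reverse ++ ((i.succ, i.castSucc) :: (i.castSucc, i.succ) ::
    (Tl ++ Nl i))).map (xe x)) := by rw [hl]; exact hP
  have hW' : W k ((l.reverse ++ ((i.succ, i.castSucc) :: (i.castSucc, i.succ) ::
    (Tl ++ Nl i))).map (xe x)) = ⊤ := by rw [hl]; exact hW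
  clear hP hW
  have hpre : preB l = true := by rw [hl]; exact dec_pre i
  have hf1 : xe x (i.succ, i.castSucc) * Xr x l = Xr x l * xe x (i.succ, i.castSucc) :=
    com_okp h _ l hpre (by rw [hl]; exact dec_f i)
  have he1 : xe x (i.castSucc, i.succ) * Xr x l = Xr x l * xe x (i.castSucc, i.succ) :=
    com_root h _ l hpre (by rw [hl]; exact dec_e1 i) (by rw [hl]; exact dec_e2 i)
      (by rw [hl]; exact dec_e3 i)
  have hmem : ∀ b ∈ l, xe x b * Xr x l = 0 := lann h l hpre
  have hne : i.castSucc ≠ i.succ := dec_ne i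
  obtain ⟨e, hedef⟩ : ∃ e, e = xe x (i.castSucc, i.succ) := ⟨_, rfl⟩
  obtain ⟨f, hfdef⟩ : ∃ f, f = xe x (i.succ, i.castSucc) := ⟨_, rfl⟩
  obtain ⟨t, htdef⟩ : ∃ t, t = x i.castSucc i.castSucc + x i.succ i.succ := ⟨_, rfl⟩
  obtain ⟨X, hX⟩ : ∃ X, X = Xr x l := ⟨_, rfl⟩
  have hee : e * e = 0 := by rw [hedef]; exact h.sq _ _ hne
  have hff : f * f = 0 := by rw [hfdef]; exact h.sq _ _ hne.symm
  have hef : e * f = f * e + t := by
    have h1 := h.comm i.castSucc i.succ i.succ i.castSucc
    rw [if_pos rfl, if_pos rfl] at h1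
    have h2 : e * f + f * e = t := by rw [hedef, hfdef, htdef]; exact h1
    rw [← h2]
    have := h.two (f * e)
    rw [add_comm (e * f), ← add_assoc, this, zero_add]
  have hte : t * e = e * t := by
    rw [hedef, htdef, add_mul, diag_comm h, diag_comm h, mul_add]
    simp only [hne, hne.symm, decide_true, decide_false, Bool.true_xor, Bool.false_xor,
      Bool.not_false, if_true]
    have := h.two (xe x (i.castSucc, i.succ))
    calc _ = (xe x (i.castSucc, i.succ) * x i.castSucc i.castSucc +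
        xe x (i.castSucc, i.succ) * x i.succ i.succ) + (xe x (i.castSucc, i.succ) +
        xe x (i.castSucc, i.succ)) := by abel
      _ = _ := by rw [this, add_zero]
  have htf : t * f = f * t := by
    rw [hfdef, htdef, add_mul, diag_comm h, diag_comm h, mul_add]
    simp only [hne, hne.symm, decide_true, decide_false, Bool.true_xor, Bool.false_xor,
      Bool.not_false, if_true]
    have := h.two (xe x (i.succ, i.castSucc))
    calc _ = (xe x (i.succ, i.castSucc) * x i.castSucc i.castSucc +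
        xe x (i.succ, i.castSucc) * x i.succ i.succ) + (xe x (i.succ, i.castSucc) +
        xe x (i.succ, i.castSucc)) := by abel
      _ = _ := by rw [this, add_zero]
  have htX : t * X = X * t := by
    have h1 : X = xp x (Al i) := by rw [hX, Xr_eq, hl, List.reverse_reverse]
    rw [h1, htdef, add_mul, diag_xp h, diag_xp h, mul_add, dec_cnt i]
    cases cnt i.succ (Al i)
    · simp
    · simp only [if_true]
      have := h.two (xp x (Al i))
      calc _ = (xp x (Al i) * x i.castSucc i.castSucc + xp x (Al i) * x i.succ i.succ) +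
            (xp x (Al i) + xp x (Al i)) := by abel
        _ = _ := by rw [this, add_zero]
  rw [← hX, ← hedef] at he1
  rw [← hX, ← hfdef] at hf1
  -- the decomposition
  obtain ⟨z, hz, hyz⟩ := ker (k := k) h l _ hpre hP' y (by rw [hW']; exact Submodule.mem_top)
    (fun b hb => hy b.1 b.2 (by
      rw [hl] at hb
      exact ((dec_Al i b.1 b.2).mpr hb).1))
  rw [← hX] at hyz
  have hinj : ∀ z ∈ W k (((i.succ, i.castSucc) :: (i.castSucc, i.succ) :: (Tl ++ Nl i)).map
      (xe x)), X * z = 0 → z = 0 := by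
    rw [hX]
    exact Xr_inj l _ hP'
  have hP1 := map_suffix _ _ hP'
  rw [List.map_cons, List.map_cons, ← hedef, ← hfdef] at hz hinj hP1
  have hfy : f * y = 0 := by
    rw [hfdef]
    exact hy i.succ i.castSucc (dec_lt i)
  have hey' : e * y = 0 := by rw [hedef]; exact hey
  have hty : t * y = 0 := by rw [htdef]; exact hhy
  clear hy hey hhy
  obtain ⟨z0, hz0, z1, hz1, rfl⟩ := mem_W_cons hz
  have h1 : z0 = 0 := by
    have h2 : X * (f * z0) = 0 := by
      calc X * (f * z0) = X * f * (z0 + f * z1) := by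
            rw [mul_assoc, mul_add f, ← mul_assoc f f, hff, zero_mul, add_zero]
        _ = f * y := by rw [← hf1, hyz, mul_assoc]
        _ = 0 := hfy
    have h3 := hinj _ (mul_W _ _ hz0) h2
    exact (hP1.2 0 (Submodule.zero_mem _) z0 hz0 (by rw [h3, add_zero])).2
  subst h1
  rw [zero_add] at hyz
  obtain ⟨w0, hw0, w1, hw1, rfl⟩ := mem_W_cons hz1
  have htW : ∀ w ∈ W k ((Tl ++ Nl i).map (xe x)), t * w ∈ W k ((Tl ++ Nl i).map (xe x)) := by
    intro w hw
    rw [htdef, add_mul]
    exact Submodule.add_mem _ (diagW h _ _ w hw) (diagW h _ _ w hw)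
  have h4 : t * w0 = 0 ∧ t * w1 = 0 := by
    have h5 : X * (f * (t * w0 + e * (t * w1))) = 0 := by
      calc X * (f * (t * w0 + e * (t * w1))) = X * (f * t) * (w0 + e * w1) := by
            rw [← mul_assoc e t, ← hte]
            simp only [mul_add, mul_assoc]
        _ = X * t * (f * (w0 + e * w1)) := by rw [← htf]; simp only [mul_assoc]
        _ = t * y := by rw [← htX, hyz, mul_assoc]
        _ = 0 := hty
    have h6 : t * w0 + e * (t * w1) ∈ W k (e :: (Tl ++ Nl i).map (xe x)) :=
      add_mul_W (htW _ hw0) (htW _ hw1)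
    have h7 := hinj _ (mul_W _ _ h6) h5
    have h8 := (hP1.2 0 (Submodule.zero_mem _) _ h6 (by rw [h7, add_zero])).2
    exact hP1.1.2 _ (htW _ hw0) _ (htW _ hw1) h8
  have h9 : w0 = 0 := by
    have h10 : e * (f * (w0 + e * w1)) = f * (e * w0) := by
      calc e * (f * (w0 + e * w1)) = e * f * (w0 + e * w1) := by rw [mul_assoc]
        _ = f * (e * w0) + f * (e * e) * w1 + (t * w0 + (t * e) * w1) := by
            rw [hef]
            simp only [add_mul, mul_add, mul_assoc]
            abel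
        _ = f * (e * w0) := by
            rw [hee, hte, h4.1, mul_assoc e t, h4.2]
            simp
    have h11 : X * (f * (e * w0)) = 0 := by
      calc X * (f * (e * w0)) = X * e * (f * (w0 + e * w1)) := by rw [← h10, mul_assoc]
        _ = e * y := by rw [← he1, hyz, mul_assoc]
        _ = 0 := hey'
    have h12 := hinj _ (mul_W _ _ (mul_W _ _ hw0)) h11
    have h13 := (hP1.2 0 (Submodule.zero_mem _) _ (mul_W _ _ hw0) (by rw [h12, add_zero])).2
    exact (hP1.1.2 0 (Submodule.zero_mem _) w0 hw0 (by rw [h13, add_zero])).2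
  subst h9
  rw [zero_add] at hyz
  refine ⟨X * w1, ?_, ?_⟩
  · intro a b hab hn
    rw [← mul_assoc]
    have := hmem (a, b) (by rw [hl]; exact (dec_Al i a b).mp ⟨hab, hn⟩)
    rw [← hX] at this
    rw [show x a b = xe x (a, b) from rfl, this, zero_mul]
  · show y = xe x (i.castSucc, i.succ) * xe x (i.succ, i.castSucc) * (X * w1)
    rw [← hedef, ← hfdef, hyz]
    calc X * (f * (e * w1)) = X * (f * e * w1 + t * w1) := by
          rw [h4.2, add_zero, mul_assoc f]
      _ = X * e * (f * w1) := by rw [← add_mul, ← hef]; simp only [mul_assoc]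
      _ = e * f * (X * w1) := by
          rw [← he1, mul_assoc, ← mul_assoc X f, ← hf1]
          simp only [mul_assoc]

end Pool.Agent.Q2.PIM
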