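import Pool.Agent.Q2.PIM.Def

/-!
# Projective indecomposable modules of `u(pgl_6)` in characteristic two: statements of the parts
-/

set_option autoImplicit false

noncomputable section

namespace Pool.Agent.Q2.PIM

open scoped TensorProduct

open Pool.Agent.Helper700.Red

attribute [local instance 100] LieRing.ofAssociativeRing

/-- the span of the products of the sublists of a list -/
def W (k : Type) {A : Type} [Field k] [Ring A] [Algebra k A] (L : List A) : Submodule k A :=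
  Submodule.span k {a | ∃ l : List A, l.Sublist L ∧ a = l.prod}

/-- the products of the sublists of a list are linearly independent -/
def PBW (k : Type) {A : Type} [Field k] [Ring A] [Algebra k A] : List A → Prop
  | [] => (1 : A) ≠ 0
  | x :: L => PBW k L ∧ ∀ w ∈ W k L, ∀ w' ∈ W k L, w + x * w' = 0 → w = 0 ∧ w' = 0

/-- SPAN: the ordered products span -/
def S_SPAN : Prop := ∀ (k A : Type) [Field k] [CharP k 2] [Ring A] [Algebra k A] (ι : Type)
  [Fintype ι] [DecidableEq ι] (x : ι → A),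
  (∀ i j, x i * x j + x j * x i ∈ Submodule.span k (Set.range x)) →
  (∀ i, x i * x i ∈ Submodule.span k (Set.range x)) →
  Algebra.adjoin k (Set.range x) = ⊤ →
  ∀ L : List ι, L.Nodup → (∀ i, i ∈ L) → W k (L.map x) = ⊤

/-- IND: the ordered products are linearly independent -/
def S_IND : Prop := ∀ (k A : Type) [Field k] [Ring A] [Algebra k A] (ι : Type)
  [Fintype ι] [DecidableEq ι] (x : ι → A) (Δ : A →ₐ[k] A ⊗[k] A)
  (_ : ∀ i, Δ (x i) = x i ⊗ₜ[k] 1 + 1 ⊗ₜ[k] x i) (ψ : ι → A →ₗ[k] k) (_ : ∀ j, ψ j 1 = 0)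
  (_ : ∀ i j, ψ j (x i) = if i = j then 1 else 0), (1 : A) ≠ 0 →
  ∀ L : List ι, L.Nodup → PBW k (L.map x)

/-- DEL: the comultiplication of the restricted enveloping algebra -/
def S_DEL : Prop := ∀ (k g : Type) [Field k] [CharP k 2] [LieRing g] [LieAlgebra k g]
  (P : PMap 2 k g),
  ∃ (u : g →ₗ[k] RedEnv P 0) (Δ : RedEnv P 0 →ₐ[k] RedEnv P 0 ⊗[k] RedEnv P 0),
    (∀ x y, u ⁅x, y⁆ = u x * u y + u y * u x) ∧ (∀ x, u (P.toFun x) = u x * u x) ∧
    Algebra.adjoin k (Set.range u) = ⊤ ∧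
    (∀ x, Δ (u x) = u x ⊗ₜ[k] 1 + 1 ⊗ₜ[k] u x) ∧
    ∀ (B : Type) [Ring B] [Algebra k B] (f : g →ₗ[k] B),
      (∀ x y, f ⁅x, y⁆ = f x * f y + f y * f x) → (∀ x, f (P.toFun x) = f x * f x) →
      ∃ F : RedEnv P 0 →ₐ[k] B, ∀ x, F (u x) = f x

/-- PGL: the restricted structure on `pgl_6` and its basis -/
def S_PGL : Prop := ∀ (k : Type) [Field k] [CharP k 2],
  ∃ (P : PMap 2 k (pgl 6 k)) (e : Fin 6 → Fin 6 → pgl 6 k),
    (∀ x, ((P.toFun x : pgl 6 k) : Module.End k (Matrix (Fin 6) (Fin 6) k)) =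
      (x : Module.End k (Matrix (Fin 6) (Fin 6) k)) ^ 2) ∧
    (∀ i j, (e i j : Module.End k (Matrix (Fin 6) (Fin 6) k)) =
      LieAlgebra.ad k (Matrix (Fin 6) (Fin 6) k) (Matrix.single i j 1)) ∧
    (∀ i j r s, ⁅e i j, e r s⁆ = (if j = r then e i s else 0) + (if s = i then e r j else 0)) ∧
    (∀ i j, P.toFun (e i j) = if i = j then e i i else 0) ∧ ∑ i, e i i = 0 ∧
    (LinearIndependent k fun p : {p : Fin 6 × Fin 6 // p ≠ (5, 5)} => e p.1.1 p.1.2) ∧
    Submodule.span k (Set.range fun p : {p : Fin 6 × Fin 6 // p ≠ (5, 5)} => e p.1.1 p.1.2) = ⊤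

/-- the relations of `u(pgl_6)` in characteristic two -/
structure Rel6 {A : Type} [Ring A] (x : Fin 6 → Fin 6 → A) : Prop where
  two : ∀ a : A, a + a = 0
  comm : ∀ i j r s, x i j * x r s + x r s * x i j =
    (if j = r then x i s else 0) + (if s = i then x r j else 0)
  sq : ∀ i j, i ≠ j → x i j * x i j = 0
  idem : ∀ i, x i i * x i i = x i i
  sum : ∑ i, x i i = 0

/-- the relations and the theorem of Poincare-Birkhoff-Witt -/
structure Env6 (k : Type) {A : Type} [Field k] [Ring A] [Algebra k A] (x : Fin 6 → Fin 6 → A) :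
    Prop where
  rel : Rel6 x
  pbw : ∀ L : List (Fin 6 × Fin 6), L.Nodup → (∀ p, p ∈ L ↔ p ≠ (5, 5)) →
    PBW k (L.map fun p => x p.1 p.2) ∧ W k (L.map fun p => x p.1 p.2) = ⊤

/-- ENV: the restricted enveloping algebra of `pgl_6` -/
def S_ENV : Prop := ∀ (k : Type) [Field k] [CharP k 2],
  ∃ (P : PMap 2 k (pgl 6 k)), (∀ x, ((P.toFun x : pgl 6 k) :
      Module.End k (Matrix (Fin 6) (Fin 6) k)) =
      (x : Module.End k (Matrix (Fin 6) (Fin 6) k)) ^ 2) ∧
    ∃ x : Fin 6 → Fin 6 → RedEnv P 0, Env6 k x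

/-- the product of the `x i j` over a list of pairs -/
def xp {A : Type} [Ring A] (x : Fin 6 → Fin 6 → A) (l : List (Fin 6 × Fin 6)) : A :=
  (l.map fun p => x p.1 p.2).prod

/-- the positive roots of `gl_5`, and the negative ones -/
def E5 : List (Fin 6 × Fin 6) :=
  [(0, 4), (1, 4), (2, 4), (3, 4), (0, 3), (1, 3), (2, 3), (0, 2), (1, 2), (0, 1)]

/-- the negative roots of `gl_5` -/
def F5 : List (Fin 6 × Fin 6) :=
  [(1, 0), (2, 0), (2, 1), (3, 0), (3, 1), (3, 2), (4, 0), (4, 1), (4, 2), (4, 3)]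

/-- STB: the Steinberg weight -/
def S_STB : Prop := ∀ (A : Type) [Ring A] (x : Fin 6 → Fin 6 → A), Rel6 x → ∀ y : A,
  (∀ p ∈ E5, x p.1 p.2 * y = 0) → x 0 0 * y = 0 → x 1 1 * y = y → x 2 2 * y = 0 →
  x 3 3 * y = y → x 4 4 * y = 0 → xp x E5 * (xp x F5 * y) = y

/-- the pairs `i < j` -/
def PP : List (Fin 6 × Fin 6) :=
  [(0, 1), (0, 2), (0, 3), (0, 4), (0, 5), (1, 2), (1, 3), (1, 4), (1, 5), (2, 3), (2, 4), (2, 5),
    (3, 4), (3, 5), (4, 5)]

/-- the Casimir element -/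
def cas {A : Type} [Ring A] (x : Fin 6 → Fin 6 → A) : A :=
  (PP.map fun p => x p.1 p.1 * x p.2 p.2 + x p.2 p.1 * x p.1 p.2).sum + (x 1 1 + x 3 3 + x 5 5)

/-- CAS: the Casimir element is central -/
def S_CAS : Prop := ∀ (A : Type) [Ring A] (x : Fin 6 → Fin 6 → A), Rel6 x →
  ∀ i j, cas x * x i j = x i j * cas x

/-- KS: decomposition into indecomposable modules -/
def S_KS : Prop := ∀ (k A : Type) [Field k] [Ring A] [Algebra k A] [Module.Finite k A] (n : ℕ),
  (∀ d ∈ pimDims k A, n ∣ d) → ∀ (M : Type) [AddCommGroup M] [Module A M] [Module.Finite A M]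
  [Module.Projective A M], n ∣ kdim k A M

/-- MQ: the smallest dimension and the largest power -/
def S_MQ : Prop := ∀ (S : Set ℕ) (a b : ℕ), S.Nonempty → (∀ d ∈ S, a ≤ d) → 2 ^ 17 < a →
  (∀ n, (∀ d ∈ S, n ∣ d) → n ∣ b) → b = 3 * 2 ^ 17 →
  ∃ m q : ℕ, IsLeast S m ∧ IsGreatest {n | (∃ r, n = 2 ^ r) ∧ ∀ d ∈ S, n ∣ d} q ∧ q < m

/-- CHN: a chain of operators with square zero -/
def S_CHN : Prop := ∀ (k M : Type) [Field k] [AddCommGroup M] [Module k M]
  [FiniteDimensional k M] (n : ℕ) (T : Fin n → Module.End k M)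
  (X : Fin (n + 1) → Module.End k M), X 0 = 1 → (∀ i : Fin n, X i.succ = X i.castSucc * T i) →
  (∀ i : Fin n, T i * T i = 0) → (∀ i : Fin n, T i * X i.castSucc = X i.castSucc * T i) →
  2 ^ n * Module.finrank k (LinearMap.range (X (Fin.last n))) ≤ Module.finrank k M

/-- the move at `i`: if the entries at `i`, `i + 1` are equal they change -/
def mv (i : Fin 5) (μ : Fin 6 → Bool) : Fin 6 → Bool :=
  if μ i.castSucc = μ i.succ then
    fun j => if j = i.castSucc ∨ j = i.succ then !(μ j) else μ j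
  else μ

/-- ORB: closed sets of weights have at least six elements -/
def S_ORB : Prop := ∀ O : Finset (Fin 6 → Bool), O.Nonempty →
  (∀ μ ∈ O, (Finset.univ.filter fun i => μ i = true).card % 2 = 0) →
  (∀ μ ∈ O, ∀ i, mv i μ ∈ O) → 6 ≤ O.card

/-- WTI: weight vectors of different weights are linearly independent -/
def S_WTI : Prop := ∀ (k M : Type) [Field k] [AddCommGroup M] [Module k M]
  [FiniteDimensional k M] (T : Fin 6 → Module.End k M) (I : Submodule k M)
  (O : Finset (Fin 6 → Bool)),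
  (∀ μ ∈ O, ∃ v ∈ I, v ≠ 0 ∧ ∀ i, T i v = if μ i then v else 0) →
  O.card ≤ Module.finrank k I

/-- FIT: splitting by a central element -/
def S_FIT : Prop := ∀ (k A : Type) [Field k] [Ring A] [Algebra k A] (c : A),
  (∀ a, c * a = a * c) → ∀ (M : Type) [AddCommGroup M] [Module A M] [Module.Finite A M]
  [Module.Projective A M] [Module k M] [IsScalarTower k A M] [FiniteDimensional k M],
  ∃ (n : ℕ) (M₀ M₁ : Submodule A M), 0 < n ∧ IsCompl M₀ M₁ ∧
    Module.Projective A M₁ ∧ Module.Finite A M₁ ∧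
    (∀ m, m ∈ M₁ ↔ ∃ m', m = c ^ n • m') ∧ (∀ m, m ∈ M₀ ↔ c ^ n • m = 0)

end Pool.Agent.Q2.PIM
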