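import Pool.Agent.Q2.PIM.Ann

/-!
# Projective indecomposable modules of `u(pgl_6)` in characteristic two: more statements
-/

set_option autoImplicit false

noncomputable section

namespace Pool.Agent.Q2.PIM

/-- TRF: transfer of a solvability property to projective modules -/
def S_TRF : Prop := ∀ (A : Type) [Ring A] (Bs Cs : Set A) (a : A),
  (∀ y : A, (∀ b ∈ Bs, b * y = 0) → ∃ z, (∀ c ∈ Cs, c * z = 0) ∧ y = a * z) →
  ∀ (P : Type) [AddCommGroup P] [Module A P] [Module.Projective A P] (p : P),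
  (∀ b ∈ Bs, b • p = 0) → ∃ z : P, (∀ c ∈ Cs, c • z = 0) ∧ p = a • z

/-- killed by the negative root vectors -/
def Low {A M : Type} [Ring A] [AddCommGroup M] [Module A M] (x : Fin 6 → Fin 6 → A) (v : M) :
    Prop :=
  ∀ i j : Fin 6, j < i → x i j • v = 0

/-- of weight `μ` -/
def Wt {A M : Type} [Ring A] [AddCommGroup M] [Module A M] (x : Fin 6 → Fin 6 → A)
    (μ : Fin 6 → Bool) (v : M) : Prop :=
  ∀ i, x i i • v = if μ i then v else 0

/-- LBO: the set of the lowest weights is closed under the moves -/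
def S_LBO : Prop := ∀ (A : Type) [Ring A] (x : Fin 6 → Fin 6 → A), Rel6 x →
  ∀ (M : Type) [AddCommGroup M] [Module A M] [Nontrivial M],
  (∀ (i : Fin 5) (v : M), Low x v → x i.castSucc i.succ • v = 0 →
    (x i.castSucc i.castSucc + x i.succ i.succ) • v = 0 →
    ∃ z : M, (∀ a b : Fin 6, b < a → ¬ (a = i.succ ∧ b = i.castSucc) → x a b • z = 0) ∧
      v = x i.castSucc i.succ • x i.succ i.castSucc • z) →
  ∃ O : Finset (Fin 6 → Bool), O.Nonempty ∧
    (∀ μ ∈ O, (Finset.univ.filter fun i => μ i = true).card % 2 = 0) ∧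
    (∀ μ ∈ O, ∀ i, mv i μ ∈ O) ∧ ∀ μ ∈ O, ∃ v : M, v ≠ 0 ∧ Low x v ∧ Wt x μ v

/-- the negative roots in a good order -/
def N15 : List Pr :=
  [(5, 0), (4, 0), (5, 1), (3, 0), (4, 1), (5, 2), (2, 0), (3, 1), (4, 2), (5, 3), (1, 0), (2, 1),
    (3, 2), (4, 3), (5, 4)]

/-- RNG: dimension bound from lowest weights -/
def S_RNG : Prop := ∀ (k A : Type) [Field k] [Ring A] [Algebra k A] (x : Fin 6 → Fin 6 → A),
  Rel6 x → ∀ (M : Type) [AddCommGroup M] [Module A M] [Module k M] [IsScalarTower k A M]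
  [FiniteDimensional k M] (O : Finset (Fin 6 → Bool)),
  (∀ μ ∈ O, ∃ m : M, xp x N15 • m ≠ 0 ∧ Wt x μ (xp x N15 • m)) →
  2 ^ 15 * O.card ≤ Module.finrank k M

/-- the idempotent of the Steinberg weight -/
def eps {A : Type} [Ring A] (x : Fin 6 → Fin 6 → A) : A :=
  (1 + x 0 0) * x 1 1 * (1 + x 2 2) * x 3 3 * (1 + x 4 4)

/-- the Steinberg vector -/
def yy {A : Type} [Ring A] (x : Fin 6 → Fin 6 → A) : A := xp x E5 * eps x

/-- YR: the properties of the Steinberg vector -/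
def S_YR : Prop := ∀ (A : Type) [Ring A] (x : Fin 6 → Fin 6 → A), Rel6 x →
  (∀ p ∈ E5, x p.1 p.2 * yy x = 0) ∧
  (∀ i : Fin 6, x i i * yy x = if (i = 1 ∨ i = 3) then yy x else 0) ∧
  yy x * (xp x F5 * yy x) = yy x

/-- SP: an upper bound for the dimension -/
def S_SP : Prop := ∀ (k A : Type) [Field k] [Ring A] [Algebra k A] (x : Fin 6 → Fin 6 → A),
  Env6 k x → ∀ y : A, (∀ p ∈ E5, x p.1 p.2 * y = 0) →
  (∀ i : Fin 6, x i i * y = 0 ∨ x i i * y = y) →
  Module.finrank k (LinearMap.range (LinearMap.mulRight k y)) ≤ 2 ^ 20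

/-- the roots outside of `gl_5` -/
def C5 : List Pr := [(0, 5), (1, 5), (2, 5), (3, 5), (4, 5)]

/-- NZ: nonzero vectors -/
def S_NZ : Prop := ∀ (k A : Type) [Field k] [Ring A] [Algebra k A] (x : Fin 6 → Fin 6 → A),
  Env6 k x → ∀ l : List Pr, l.Sublist C5 → xp x N15 * (xp x l * yy x) ≠ 0

/-- the value of the Casimir element -/
def cv (μ : Fin 6 → Bool) : Bool :=
  ((PP.map fun p => (μ p.1 && μ p.2) ^^ (μ p.1 ^^ μ p.2)).foldr xor false) ^^ (μ 1 ^^ μ 3 ^^ μ 5)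

/-- CW: the value of the Casimir element on a lowest weight vector -/
def S_CW : Prop := ∀ (A : Type) [Ring A] (x : Fin 6 → Fin 6 → A), Rel6 x →
  ∀ (M : Type) [AddCommGroup M] [Module A M] (μ : Fin 6 → Bool) (v : M), Low x v → Wt x μ v →
  cas x • v = if cv μ then v else 0

/-- WTS: the weights of the vectors -/
def S_WTS : Prop := ∀ (A : Type) [Ring A] (x : Fin 6 → Fin 6 → A), Rel6 x → ∀ y : A,
  (∀ i : Fin 6, x i i * y = if (i = 1 ∨ i = 3) then y else 0) →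
  ∃ O₀ O₁ : Finset (Fin 6 → Bool), O₀.card = 20 ∧ O₁.card = 12 ∧
    (∀ μ ∈ O₀, cv μ = false) ∧ (∀ μ ∈ O₁, cv μ = true) ∧
    ∀ μ ∈ O₀ ∪ O₁, ∃ l : List Pr, l.Sublist C5 ∧
      Wt x μ (xp x N15 * (xp x l * y))

/-- the intermediate statement for the pair `i + 1, i` -/
def S_SI : Prop := ∀ (k A : Type) [Field k] [Ring A] [Algebra k A] (x : Fin 6 → Fin 6 → A),
  Env6 k x → ∀ (i : Fin 5) (y : A), (∀ a b : Fin 6, b < a → x a b * y = 0) →
  x i.castSucc i.succ * y = 0 → (x i.castSucc i.castSucc + x i.succ i.succ) * y = 0 →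
  ∃ z : A, (∀ a b : Fin 6, b < a → ¬ (a = i.succ ∧ b = i.castSucc) → x a b * z = 0) ∧
    y = x i.castSucc i.succ * x i.succ i.castSucc * z

/-- the vectors killed by the negative roots -/
def S_KX : Prop := ∀ (k A : Type) [Field k] [Ring A] [Algebra k A] (x : Fin 6 → Fin 6 → A),
  Env6 k x → ∀ y : A, (∀ a b : Fin 6, b < a → x a b * y = 0) → ∃ z : A, y = xp x N15 * z

end Pool.Agent.Q2.PIM
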